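import Pool.Agent.W221.NS.Stm

/-!
The flux through the unit cut-off at one time.
-/

open MeasureTheory Set Metric
open scoped ContDiff

namespace W162.MD

open H459R3.NS W221.NS

theorem int_ball {f : V → ℝ} (hf : Continuous f) (a : V) (ρ : ℝ) : IntegrableOn f (ball a ρ) :=
  (hf.locallyIntegrable.integrableOn_isCompact (isCompact_closedBall a ρ)).mono_set
    ball_subset_closedBall

/-- Cauchy-Schwarz on a ball. -/
theorem cs_ball {f g : V → ℝ} (hf : Continuous f) (hg : Continuous g) (a : V) (ρ : ℝ) :
    |∫ x in ball a ρ, f x * g x| ≤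
      √(∫ x in ball a ρ, f x ^ 2) * √(∫ x in ball a ρ, g x ^ 2) := by
  set A := ∫ x in ball a ρ, f x ^ 2
  set B := ∫ x in ball a ρ, f x * g x
  set D := ∫ x in ball a ρ, g x ^ 2
  have hA : 0 ≤ A := integral_nonneg fun x => sq_nonneg _
  have key : ∀ t : ℝ, 0 ≤ D * (t * t) + (2 * B) * t + A := by
    intro t
    have h : ∫ x in ball a ρ, (f x + t * g x) ^ 2 = D * (t * t) + (2 * B) * t + A := by
      have e : ∀ x, (f x + t * g x) ^ 2 = (g x ^ 2 * (t * t) + (f x * g x) * (2 * t)) + f x ^ 2 :=
        fun x => by ring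
      simp_rw [e]
      rw [integral_add, integral_add, integral_mul_const, integral_mul_const]
      · ring
      · exact (int_ball (hg.pow 2) a ρ).mul_const _
      · exact (int_ball (hf.mul hg) a ρ).mul_const _
      · exact ((int_ball (hg.pow 2) a ρ).mul_const _).add ((int_ball (hf.mul hg) a ρ).mul_const _)
      · exact int_ball (hf.pow 2) a ρ
    rw [← h]
    exact integral_nonneg fun x => sq_nonneg _
  have h1 := discrim_le_zero key
  rw [← Real.sqrt_mul hA]
  apply Real.abs_le_sqrt
  unfold discrim at h1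
  nlinarith

theorem cont_nsq {v : V → V} (hv : ContDiff ℝ ∞ v) : Continuous (nsq v) := by
  unfold nsq
  have := hv.continuous
  fun_prop

theorem contDiff_kap : ContDiff ℝ ∞ (fun z : V => kap z) := kap.contDiff

theorem kap_zero {z : V} (hz : z ∉ ball (0 : V) 1) : kap z = 0 := by
  apply kap.zero_of_le_dist
  simpa [kap] using hz

theorem nsq_nonneg (v : V → V) (z : V) : 0 ≤ nsq v z :=
  Finset.sum_nonneg fun _ _ => sq_nonneg _

theorem abs_le_sqrt_nsq (v : V → V) (z : V) (j : Fin 3) : |v z j| ≤ √(nsq v z) := by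
  apply Real.abs_le_sqrt
  exact Finset.single_le_sum (f := fun i => v z i ^ 2) (fun _ _ => sq_nonneg _)
    (Finset.mem_univ j)

theorem pd_cont {f : V → ℝ} (hf : ContDiff ℝ ∞ f) (j : Fin 3) : Continuous (pd j f) := by
  unfold pd
  exact (hf.continuous_fderiv (by simp)).clm_apply continuous_const

/-- The derivatives of the cut-off are bounded. -/
theorem exists_bound : ∃ C : ℝ, 0 < C ∧ ∀ j z, |pd j (fun y : V => kap y) z| ≤ C := by
  have hc : ∀ j : Fin 3, ∃ C, ∀ z, ‖pd j (fun y : V => kap y) z‖ ≤ C := by
    intro j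
    apply Continuous.bounded_above_of_compact_support (pd_cont contDiff_kap j)
    have h1 : HasCompactSupport (fderiv ℝ (fun y : V => kap y)) :=
      HasCompactSupport.fderiv ℝ kap.hasCompactSupport
    exact h1.comp_left (g := fun L : V →L[ℝ] ℝ => L (Pi.single j 1)) (by simp)
  choose C hC using hc
  refine ⟨1 + ∑ j, |C j|, by positivity, fun j z => ?_⟩
  have h1 := hC j z
  rw [Real.norm_eq_abs] at h1
  have h2 : |C j| ≤ ∑ j, |C j| :=
    Finset.single_le_sum (f := fun j => |C j|) (fun i _ => abs_nonneg _) (Finset.mem_univ j)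
  have h3 := le_abs_self (C j)
  linarith

theorem pd_kap_sq (j : Fin 3) (z : V) :
    pd j (fun y : V => kap y ^ 2) z = 2 * kap z * pd j (fun y : V => kap y) z := by
  unfold pd
  have hd : DifferentiableAt ℝ (fun y : V => kap y) z :=
    (contDiff_kap.differentiable (by simp)).differentiableAt
  rw [fderiv_fun_pow 2 hd]
  simp

theorem adv_kap (v : V → V) (z : V) :
    adv v (fun y : V => kap y ^ 2) z
      = ∑ j, v z j * (2 * kap z * pd j (fun y : V => kap y) z) := by
  unfold adv
  simp_rw [pd_kap_sq]

theorem adv_kap_le {C₀ : ℝ} (hC : ∀ j z, |pd j (fun y : V => kap y) z| ≤ C₀) (v : V → V) (z : V) :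
    |adv v (fun y : V => kap y ^ 2) z| ≤ 6 * C₀ * (kap z * √(nsq v z)) := by
  rw [adv_kap]
  calc |∑ j, v z j * (2 * kap z * pd j (fun y : V => kap y) z)|
      ≤ ∑ j, |v z j * (2 * kap z * pd j (fun y : V => kap y) z)| := Finset.abs_sum_le_sum_abs _ _
    _ ≤ ∑ _j : Fin 3, √(nsq v z) * (2 * kap z * C₀) := by
        apply Finset.sum_le_sum
        intro j _
        rw [abs_mul, abs_mul, abs_mul, abs_two, abs_of_nonneg (kap.nonneg : 0 ≤ kap z)]
        have h0 : 0 ≤ kap z := kap.nonneg
        exact mul_le_mul (abs_le_sqrt_nsq v z j)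
          (mul_le_mul_of_nonneg_left (hC j z) (by positivity)) (by positivity) (Real.sqrt_nonneg _)
    _ = 6 * C₀ * (kap z * √(nsq v z)) := by
        rw [Finset.sum_const, Finset.card_univ, Fintype.card_fin]
        simp only [nsmul_eq_mul]
        push_cast
        ring

theorem adv_kap_zero (v : V → V) {z : V} (hz : z ∉ ball (0 : V) 1) :
    adv v (fun y : V => kap y ^ 2) z = 0 := by
  rw [adv_kap, kap_zero hz]
  simp

theorem cont_adv_kap {v : V → V} (hv : ContDiff ℝ ∞ v) :
    Continuous (adv v (fun y : V => kap y ^ 2)) := by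
  have h1 : ∀ z, adv v (fun y : V => kap y ^ 2) z
      = ∑ j, v z j * (2 * kap z * pd j (fun y : V => kap y) z) := adv_kap v
  have h2 : adv v (fun y : V => kap y ^ 2)
      = fun z => ∑ j, v z j * (2 * kap z * pd j (fun y : V => kap y) z) := funext h1
  rw [h2]
  have hc := hv.continuous
  have hk : Continuous fun z : V => kap z := kap.continuous
  have hp := fun j => pd_cont contDiff_kap j
  fun_prop

/-- Products with the flux through the cut-off. -/
theorem flux_le {C₀ : ℝ} (h0 : 0 ≤ C₀) (hC : ∀ j z, |pd j (fun y : V => kap y) z| ≤ C₀)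
    {v : V → V} (hv : ContDiff ℝ ∞ v) {f : V → ℝ} (hf : Continuous f) :
    |∫ z, f z * adv v (fun y => kap y ^ 2) z| ≤
      6 * C₀ * (√(∫ z in ball (0 : V) 1, f z ^ 2) * √(∫ z, nsq v z * kap z ^ 2)) := by
  have hk : Continuous fun z : V => kap z := kap.continuous
  have hs : Continuous fun z : V => kap z * √(nsq v z) := hk.mul (cont_nsq hv).sqrt
  have e1 : ∫ z, f z * adv v (fun y => kap y ^ 2) z
      = ∫ z in ball (0 : V) 1, f z * adv v (fun y => kap y ^ 2) z := by
    refine (setIntegral_eq_integral_of_forall_compl_eq_zero fun z hz => ?_).symm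
    rw [adv_kap_zero v hz, mul_zero]
  have e2 : ∫ z, nsq v z * kap z ^ 2
      = ∫ z in ball (0 : V) 1, (kap z * √(nsq v z)) ^ 2 := by
    rw [← setIntegral_eq_integral_of_forall_compl_eq_zero (s := ball (0 : V) 1) fun z hz => ?_]
    · refine integral_congr_ae (Filter.Eventually.of_forall fun z => ?_)
      simp only [mul_pow, Real.sq_sqrt (nsq_nonneg v z)]
      ring
    · rw [kap_zero hz]; simp
  rw [e1, e2]
  calc |∫ z in ball (0 : V) 1, f z * adv v (fun y => kap y ^ 2) z|
      ≤ ∫ z in ball (0 : V) 1, |f z * adv v (fun y => kap y ^ 2) z| :=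
        abs_integral_le_integral_abs
    _ ≤ ∫ z in ball (0 : V) 1, 6 * C₀ * (|f z| * (kap z * √(nsq v z))) := by
        apply integral_mono
        · exact int_ball ((hf.mul (cont_adv_kap hv)).abs) 0 1
        · exact int_ball (continuous_const.mul (hf.abs.mul hs)) 0 1
        · intro z
          simp only [abs_mul]
          have := mul_le_mul_of_nonneg_left (adv_kap_le hC v z) (abs_nonneg (f z))
          linarith
    _ = 6 * C₀ * ∫ z in ball (0 : V) 1, |f z| * (kap z * √(nsq v z)) := by
        rw [integral_const_mul]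
    _ ≤ 6 * C₀ * (√(∫ z in ball (0 : V) 1, f z ^ 2)
          * √(∫ z in ball (0 : V) 1, (kap z * √(nsq v z)) ^ 2)) := by
        apply mul_le_mul_of_nonneg_left _ (by positivity)
        have h1 := cs_ball hf.abs hs 0 1
        simp only [sq_abs] at h1
        exact (le_abs_self _).trans h1

/-- Integration by parts. -/
theorem flux_ibp {v : V → V} (hv : ContDiff ℝ ∞ v)
    (hdiv : ∀ x, ∑ i, pd i (fun y => v y i) x = 0) {g : V → ℝ} (hg : ContDiff ℝ ∞ g) :
    ∫ z, g z * adv v (fun y => kap y ^ 2) z
      = -∫ z, ∑ j, (kap z ^ 2 * v z j) * pd j g z := by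
  have hk : Continuous fun z : V => kap z := kap.continuous
  have hvj : ∀ j, ContDiff ℝ ∞ fun z => v z j := fun j => (contDiff_pi.1 hv) j
  have hkv : ∀ j, ContDiff ℝ ∞ fun z : V => kap z ^ 2 * v z j :=
    fun j => (contDiff_kap.pow 2).mul (hvj j)
  have hsup : ∀ j, HasCompactSupport fun z : V => kap z ^ 2 * v z j := by
    intro j
    apply HasCompactSupport.mul_right
    have : (fun z : V => kap z ^ 2) = fun z : V => (fun y : ℝ => y ^ 2) (kap z) := rfl
    rw [this]
    exact kap.hasCompactSupport.comp_left (g := fun y : ℝ => y ^ 2) (by simp)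
  have hsup' : ∀ j, HasCompactSupport (pd j fun z : V => kap z ^ 2 * v z j) := by
    intro j
    have h1 := HasCompactSupport.fderiv ℝ (hsup j)
    exact h1.comp_left (g := fun L : V →L[ℝ] ℝ => L (Pi.single j 1)) (by simp)
  have hpk : ∀ j z, pd j (fun y : V => kap y ^ 2 * v y j) z
      = v z j * (2 * kap z * pd j (fun y : V => kap y) z) + kap z ^ 2 * pd j (fun y => v y j) z := by
    intro j z
    have h1 : DifferentiableAt ℝ (fun y : V => kap y ^ 2) z :=
      ((contDiff_kap.pow 2).differentiable (by simp)).differentiableAt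
    have h2 : DifferentiableAt ℝ (fun y : V => v y j) z :=
      ((hvj j).differentiable (by simp)).differentiableAt
    have h3 := pd_kap_sq j z
    unfold pd at h3 ⊢
    rw [fderiv_fun_mul h1 h2]
    simp only [_root_.add_apply, _root_.smul_apply, smul_eq_mul]
    rw [h3]
    ring
  have hsum : ∀ z, adv v (fun y => kap y ^ 2) z
      = ∑ j, pd j (fun y : V => kap y ^ 2 * v y j) z := by
    intro z
    simp_rw [hpk]
    rw [Finset.sum_add_distrib, ← Finset.mul_sum, hdiv z, mul_zero, add_zero, adv_kap]
  have hib : ∀ j, ∫ z, (kap z ^ 2 * v z j) * pd j g z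
      = -∫ z, pd j (fun y : V => kap y ^ 2 * v y j) z * g z := by
    intro j
    unfold pd
    refine integral_mul_fderiv_eq_neg_fderiv_mul_of_integrable ?_ ?_ ?_ ?_ ?_
    · exact (Continuous.mul (pd_cont (hkv j) j) hg.continuous).integrable_of_hasCompactSupport
        ((hsup' j).mul_right)
    · exact (Continuous.mul (hkv j).continuous (pd_cont hg j)).integrable_of_hasCompactSupport
        ((hsup j).mul_right)
    · exact (Continuous.mul (hkv j).continuous hg.continuous).integrable_of_hasCompactSupport
        ((hsup j).mul_right)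
    · exact fun x _ => ((hkv j).differentiable (by simp)).differentiableAt
    · exact fun x _ => (hg.differentiable (by simp)).differentiableAt
  rw [integral_finsetSum]
  · simp_rw [hib]
    rw [Finset.sum_neg_distrib, neg_neg, ← integral_finsetSum]
    · refine integral_congr_ae (Filter.Eventually.of_forall fun z => ?_)
      simp only [hsum z, Finset.mul_sum]
      exact Finset.sum_congr rfl fun j _ => mul_comm _ _
    · intro j _
      exact (Continuous.mul (pd_cont (hkv j) j) hg.continuous).integrable_of_hasCompactSupport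
        ((hsup' j).mul_right)
  · intro j _
    exact (Continuous.mul (hkv j).continuous (pd_cont hg j)).integrable_of_hasCompactSupport
        ((hsup j).mul_right)

theorem vol_ball : (volume : Measure V).real (ball (0 : V) 1) = 8 := by
  rw [Measure.real, Real.volume_pi_ball _ one_pos]
  simp
  norm_num

/-- The flux of the almost linear part of the pressure. -/
theorem lin_le {H : ℝ} (h0 : 0 ≤ H) {v : V → V} (hv : ContDiff ℝ ∞ v)
    (hdiv : ∀ x, ∑ i, pd i (fun y => v y i) x = 0) {g : V → ℝ} (hg : ContDiff ℝ ∞ g)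
    (hH : ∀ z ∈ ball (0 : V) 1, ∀ i, |pd i g z| ≤ H) :
    |∫ z, g z * adv v (fun y => kap y ^ 2) z|
      ≤ 9 * H * √(∫ z, nsq v z * kap z ^ 2) := by
  have hk : Continuous fun z : V => kap z := kap.continuous
  have hs : Continuous fun z : V => kap z * √(nsq v z) := hk.mul (cont_nsq hv).sqrt
  have hvj : ∀ j, Continuous fun z => v z j := fun j => ((contDiff_pi.1 hv) j).continuous
  have hpg := fun j => pd_cont hg j
  rw [flux_ibp hv hdiv hg, abs_neg]
  have e1 : ∫ z, ∑ j, (kap z ^ 2 * v z j) * pd j g z
      = ∫ z in ball (0 : V) 1, ∑ j, (kap z ^ 2 * v z j) * pd j g z := by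
    refine (setIntegral_eq_integral_of_forall_compl_eq_zero fun z hz => ?_).symm
    rw [kap_zero hz]
    simp
  have e2 : ∫ z, nsq v z * kap z ^ 2
      = ∫ z in ball (0 : V) 1, (kap z * √(nsq v z)) ^ 2 := by
    rw [← setIntegral_eq_integral_of_forall_compl_eq_zero (s := ball (0 : V) 1) fun z hz => ?_]
    · refine integral_congr_ae (Filter.Eventually.of_forall fun z => ?_)
      simp only [mul_pow, Real.sq_sqrt (nsq_nonneg v z)]
      ring
    · rw [kap_zero hz]; simp
  rw [e1, e2]
  have hcs := cs_ball (f := fun _ => (1 : ℝ)) continuous_const hs 0 1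
  have h8 : √(∫ _x in ball (0 : V) 1, (1 : ℝ) ^ 2) ≤ 3 := by
    rw [Real.sqrt_le_left (by norm_num)]
    simp only [one_pow, setIntegral_const, smul_eq_mul, mul_one]
    rw [vol_ball]
    norm_num
  calc |∫ z in ball (0 : V) 1, ∑ j, (kap z ^ 2 * v z j) * pd j g z|
      ≤ ∫ z in ball (0 : V) 1, |∑ j, (kap z ^ 2 * v z j) * pd j g z| :=
        abs_integral_le_integral_abs
    _ ≤ ∫ z in ball (0 : V) 1, 3 * H * (1 * (kap z * √(nsq v z))) := by
        apply setIntegral_mono_on
        · exact int_ball (by fun_prop) 0 1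
        · exact int_ball (continuous_const.mul (continuous_const.mul hs)) 0 1
        · exact measurableSet_ball
        · intro z hz
          have hk0 : 0 ≤ kap z := kap.nonneg
          have hk1 : kap z ≤ 1 := kap.le_one
          calc |∑ j, (kap z ^ 2 * v z j) * pd j g z|
              ≤ ∑ j, |(kap z ^ 2 * v z j) * pd j g z| := Finset.abs_sum_le_sum_abs _ _
            _ ≤ ∑ _j : Fin 3, (kap z * √(nsq v z)) * H := by
                apply Finset.sum_le_sum
                intro j _
                rw [abs_mul, abs_mul, abs_of_nonneg (sq_nonneg (kap z))]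
                apply mul_le_mul _ (hH z hz j) (abs_nonneg _) (by positivity)
                apply mul_le_mul _ (abs_le_sqrt_nsq v z j) (abs_nonneg _) hk0
                nlinarith
            _ = 3 * H * (1 * (kap z * √(nsq v z))) := by
                rw [Finset.sum_const, Finset.card_univ, Fintype.card_fin]
                simp only [nsmul_eq_mul]
                push_cast
                ring
    _ = 3 * H * ∫ z in ball (0 : V) 1, 1 * (kap z * √(nsq v z)) := by
        rw [integral_const_mul]
    _ ≤ 3 * H * (3 * √(∫ z in ball (0 : V) 1, (kap z * √(nsq v z)) ^ 2)) := by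
        apply mul_le_mul_of_nonneg_left _ (by positivity)
        refine (le_abs_self _).trans (hcs.trans ?_)
        exact mul_le_mul_of_nonneg_right h8 (Real.sqrt_nonneg _)
    _ = 9 * H * √(∫ z in ball (0 : V) 1, (kap z * √(nsq v z)) ^ 2) := by ring

theorem t_CUT (hU : S_UNIT) (hP : S_POINC) (hH : S_HB) : S_CUT := by
  obtain ⟨CU, hCU, hU⟩ := hU
  obtain ⟨CP, hCP, hP⟩ := hP
  obtain ⟨CH, hCH, hH⟩ := hH
  obtain ⟨C₀, hC₀, hC⟩ := exists_bound
  refine ⟨6 * C₀ * CU + 12 * C₀ + 18 * CH + 18 * CH * √CP + 1, by positivity, ?_⟩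
  intro v q P G hS
  have hv := hS.sv
  have hq := hS.sq
  have hPs := hS.sP
  have hg : ContDiff ℝ ∞ fun x => q x - P x := hq.sub hPs
  have hG : 0 ≤ G := by
    refine le_trans ?_ hS.grad
    unfold B2
    refine integral_nonneg fun z => ?_
    exact Finset.sum_nonneg fun _ _ => Finset.sum_nonneg fun _ _ => sq_nonneg _
  set E := ∫ z, nsq v z * kap z ^ 2 with hE
  have hE0 : 0 ≤ E := integral_nonneg fun z => mul_nonneg (nsq_nonneg v z) (sq_nonneg _)
  -- the energy is bounded by the gradient
  have hE1 : √E ≤ √CP * √G := by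
    rw [← Real.sqrt_mul hCP.le]
    apply Real.sqrt_le_sqrt
    have h1 : E ≤ A2 0 2 v := by
      have e : E = ∫ z in ball (0 : V) 1, nsq v z * kap z ^ 2 := by
        refine (setIntegral_eq_integral_of_forall_compl_eq_zero fun z hz => ?_).symm
        rw [kap_zero hz]
        simp
      have hk : Continuous fun z : V => kap z := kap.continuous
      rw [e]
      unfold A2
      calc ∫ z in ball (0 : V) 1, nsq v z * kap z ^ 2
          ≤ ∫ z in ball (0 : V) 1, nsq v z := by
            apply integral_mono
            · exact int_ball ((cont_nsq hv).mul (hk.pow 2)) 0 1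
            · exact int_ball (cont_nsq hv) 0 1
            · intro z
              have hk0 : 0 ≤ kap z := kap.nonneg
              have hk1 : kap z ≤ 1 := kap.le_one
              have h2 : kap z ^ 2 ≤ 1 := by nlinarith
              have := mul_le_mul_of_nonneg_left h2 (nsq_nonneg v z)
              simpa using this
        _ ≤ ∫ z in ball (0 : V) 2, nsq v z := by
            apply setIntegral_mono_set (int_ball (cont_nsq hv) 0 2)
            · exact Filter.Eventually.of_forall fun z => nsq_nonneg v z
            · exact (ball_subset_ball (by norm_num)).eventuallyLE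
    have h2 := hP v hv hS.mean
    have h3 := mul_le_mul_of_nonneg_left hS.grad hCP.le
    linarith
  -- the three terms
  have hU1 := hU v hv hS.mean
  have hU2 : √(L4 0 1 v) ≤ CU * G :=
    hU1.trans (mul_le_mul_of_nonneg_left hS.grad hCU.le)
  have ta := flux_le hC₀.le hC hv (cont_nsq hv)
  have tP := flux_le hC₀.le hC hv hPs.continuous
  have tg := lin_le (H := CH * (√G + G)) (by positivity) hv hS.div hg (hH v q P G hS)
  rw [← hE] at ta tP tg
  have hP2 : √(∫ z in ball (0 : V) 1, P z ^ 2) ≤ G := by
    rw [Real.sqrt_le_left hG]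
    exact hS.nP
  have ta' : |∫ z, nsq v z * adv v (fun y => kap y ^ 2) z| ≤ 6 * C₀ * (CU * G * √E) := by
    refine ta.trans ?_
    apply mul_le_mul_of_nonneg_left _ (by positivity)
    exact mul_le_mul_of_nonneg_right hU2 (Real.sqrt_nonneg _)
  have tP' : |∫ z, P z * adv v (fun y => kap y ^ 2) z| ≤ 6 * C₀ * (G * √E) := by
    refine tP.trans ?_
    apply mul_le_mul_of_nonneg_left _ (by positivity)
    exact mul_le_mul_of_nonneg_right hP2 (Real.sqrt_nonneg _)
  have hint : ∀ f : V → ℝ, Continuous f →
      Integrable fun z => f z * adv v (fun y => kap y ^ 2) z := by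
    intro f hf
    have h1 : Continuous fun z => f z * adv v (fun y => kap y ^ 2) z :=
      hf.mul (cont_adv_kap hv)
    apply h1.integrable_of_hasCompactSupport
    apply HasCompactSupport.intro (isCompact_closedBall (0 : V) 1)
    intro z hz
    rw [adv_kap_zero v fun h => hz (ball_subset_closedBall h), mul_zero]
  have hsplit : ∫ z, (nsq v z + 2 * q z) * adv v (fun y => kap y ^ 2) z
      = (∫ z, nsq v z * adv v (fun y => kap y ^ 2) z)
        + 2 * (∫ z, P z * adv v (fun y => kap y ^ 2) z)
        + 2 * ∫ z, (q z - P z) * adv v (fun y => kap y ^ 2) z := by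
    rw [← integral_const_mul, ← integral_const_mul, ← integral_add, ← integral_add]
    · refine integral_congr_ae (Filter.Eventually.of_forall fun z => ?_)
      simp only
      ring
    · exact (hint _ (cont_nsq hv)).add ((hint _ hPs.continuous).const_mul 2)
    · exact (hint _ hg.continuous).const_mul 2
    · exact hint _ (cont_nsq hv)
    · exact (hint _ hPs.continuous).const_mul 2
  rw [hsplit]
  have h1 : |(∫ z, nsq v z * adv v (fun y => kap y ^ 2) z)
        + 2 * (∫ z, P z * adv v (fun y => kap y ^ 2) z)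
        + 2 * ∫ z, (q z - P z) * adv v (fun y => kap y ^ 2) z|
      ≤ 6 * C₀ * (CU * G * √E) + 2 * (6 * C₀ * (G * √E))
        + 2 * (9 * (CH * (√G + G)) * √E) := by
    refine (abs_add_le _ _).trans (add_le_add ((abs_add_le _ _).trans (add_le_add ta' ?_)) ?_)
    · rw [abs_mul, abs_two]
      exact mul_le_mul_of_nonneg_left tP' (by norm_num)
    · rw [abs_mul, abs_two]
      exact mul_le_mul_of_nonneg_left tg (by norm_num)
  refine h1.trans ?_
  have hsE : 0 ≤ √E := Real.sqrt_nonneg _
  have hsG : 0 ≤ √G := Real.sqrt_nonneg _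
  have hGE : √G * √E ≤ √CP * G := by
    calc √G * √E ≤ √G * (√CP * √G) := mul_le_mul_of_nonneg_left hE1 hsG
      _ = √CP * (√G * √G) := by ring
      _ = √CP * G := by rw [Real.mul_self_sqrt hG]
  have h2 : 18 * CH * (√G * √E) ≤ 18 * CH * (√CP * G) :=
    mul_le_mul_of_nonneg_left hGE (by positivity)
  have h3 : 0 ≤ G * √E := by positivity
  have h4 : 0 ≤ CH * √CP * (G * √E) := by positivity
  have h5 : 0 ≤ C₀ * CU * G := by positivity
  have h6 : 0 ≤ C₀ * G := by positivity
  have h7 : 0 ≤ CH * G := by positivity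
  nlinarith

end W162.MD
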